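import Pool.Agent.Helper38_Strip.Disc
import Pool.Agent.Helper38_Strip.LimD
import Pool.Agent.Helper38_Strip.LimK
import Pool.Agent.Helper38_Strip.Main
import Pool.Agent.Helper38_Strip.Rows
import Pool.Agent.Helper33_Strip.Four
import Pool.Agent.Helper33_Strip.Stat
import Pool.Agent.Helper33_Strip.Updh
import Pool.Agent.Helper43_Strip.Asym
import Pool.Agent.Helper43_Strip.K3b
import Pool.Agent.Helper43_Strip.Lap
import Pool.Agent.Helper44_Strip.BadP
import Pool.Agent.Helper44_Strip.BoxGood
import Pool.Agent.Helper44_Strip.LawBox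
import Pool.Agent.Helper44_Strip.LppChain
import Pool.Agent.Helper44_Strip.PathChain
import Pool.Agent.Helper44_Strip.Pois
import Pool.Agent.Helper51_Strip.Basic
import Pool.Agent.Helper51_Strip.Comp
import Pool.Agent.Helper51_Strip.Mart
import Pool.Agent.Helper76_Strip.Area
import Pool.Agent.Helper76_Strip.CountMom
import Pool.Agent.Helper76_Strip.DErr
import Pool.Agent.Helper76_Strip.Dom
import Pool.Agent.Helper92_Strip.EY
import Pool.Agent.Helper92_Strip.EY1
import Pool.Agent.Helper92_Strip.Lims
import Pool.Agent.Helper92_Strip.MomY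

/-!
# `MP_cd3e9c_pr`: variance of the longest increasing path in thin diagonal rectangles

Full positive answer to Q1 with the explicit constant `c = 3 √π / 2 ^ (13 / 4)`:
`Var(L^R) = c ℓ / √w (1 + o(1))` as `ℓ → ∞` with `1 ≪ w ≪ ℓ ^ (2 / 3)`.

Idea of the proof: Poisson points are approximated by independent occupied squares of a fine
lattice; the resulting last passage model in a strip with hard walls has an explicit stationary law
(a pair of ordered profiles, found with a matrix product ansatz), and the function
`c ↦ E max (c + g)`, with `g` an independent stationary profile, solves its Poisson equation, so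
that the variance per unit length is an explicit expectation, computed with the Pfaffian formula
for four ordered profiles and the Laplace method.
-/

namespace Pool.Agent.Results.MP_cd3e9c_pr.StripVariance

open Pool.Agent.Helper38_Strip MeasureTheory Filter Topology ProbabilityTheory

universe u v

/-- `Var(L^R) √w / ℓ → 3 √π / 2 ^ (13 / 4)` in the regime `1 ≪ w ≪ ℓ ^ (2 / 3)`. -/
theorem result {Ω : Type u} [MeasurableSpace Ω] (P : Measure Ω) [IsProbabilityMeasure P]
    (S : Ω → Set (ℝ × ℝ)) (hS : IsPoissonProcess P S) :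
    (∀ l w : ℝ, 0 < l → 0 < w → MemLp (fun ω => (Lmax (S ω) l w : ℝ)) 2 P) ∧
    ∀ {ι : Type v} (F : Filter ι) (l w : ι → ℝ), Tendsto l F atTop → Tendsto w F atTop →
      Tendsto (fun i => w i / l i ^ (2 / 3 : ℝ)) F (𝓝 0) →
      Tendsto (fun i => variance (fun ω => (Lmax (S ω) (l i) (w i) : ℝ)) P * √(w i) / l i) F
        (𝓝 (3 * √Real.pi / 2 ^ (13 / 4 : ℝ))) := by
  have hBasic := H51.basic
  have hUpd := H33.updh
  have hDual := H33.dual
  have hStat := H33.stat
  have hFour := H33.four
  have hFour2 := H33.four2
  have hPeq := H51.peq hDual hStat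
  have hLawT := H51.lawt hStat
  have hVarM := H51.varm hPeq hLawT hStat
  have hComp := H51.comp hUpd
  have hMomY := Pool.Agent.Helper92_Strip.momY hBasic hStat hUpd
  have hDisc := disc hVarM hLawT hComp hMomY hBasic
  have hX := Pool.Agent.Helper92_Strip.limX
  have hI := Pool.Agent.Helper92_Strip.limI
  have hQ := Pool.Agent.Helper92_Strip.limQ hFour
  have hErr := Pool.Agent.Helper76_Strip.dErr hBasic hPeq
  have hEY := Pool.Agent.Helper92_Strip.ey yLaw hFour pair
  have hEY1 := Pool.Agent.Helper92_Strip.ey1 yLaw1 hFour pair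
  have hLimD := limD hX hI hQ hErr hEY hEY1 pi1 hFour
  have hK2B := Pool.Agent.Helper92_Strip.k2b hBasic yLaw hFour pair
  have hLimK3 := Pool.Agent.Helper92_Strip.limK3 hFour hFour2
  have hLap := lap
  have hK3B := k3b hLap
  have hLimK := limK hX hK2B hLimK3 hK3B
  have hAsym := asym hLap
  have hPois := H44.pois.{u} H44.lawBox (H44.badP Pool.Agent.Helper76_Strip.area)
    Pool.Agent.Helper76_Strip.countMom
    (Pool.Agent.Helper76_Strip.dom H44.pathChain H44.lppChain)
    (H44.boxGood H44.pathChain H44.lppChain)
  have h := main.{u, v} hDisc hX hLimD hLimK hAsym hPois Ω _ P inferInstance S hS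
  exact ⟨h.1, fun {ι} F l w h1 h2 h3 => h.2 ι F l w h1 h2 h3⟩

end Pool.Agent.Results.MP_cd3e9c_pr.StripVariance
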